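import Pool.Agent.X310.Mz2

/-!
# `MP_6b77c8_nt`: the quotient of the two sides of Mazur's main conjecture

Let `f`, `g` be the distinguished polynomials of `char X(E/ℚ_∞)` and of the `p`-adic `L`-function.
Known: `f ∣ g` (Kato), both satisfy the functional equation, and their orders of vanishing at `T = 0`
have the same parity (`p`-parity).  Then `g/f` is a distinguished polynomial in `T²/(1+T)` (cleared
of denominators); so the main conjecture up to powers of `p` holds as soon as
`λ(L_p) ≤ λ(X) + 1`, and the orders of vanishing at characters of order `p^(m+1)` agree as soon as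
`λ(L_p) < λ(X) + p^m (p-1)`.
-/

set_option autoImplicit false

namespace Pool.Agent.Results.MP_6b77c8_nt.QuotientStructure

open Polynomial Pool.Agent.X310.Mz

theorem result (p : ℕ) [Fact p.Prime] (hp : p ≠ 2) (f g : ℤ_[p][X]) (hf : Distinguished f)
    (hg : Distinguished g) (hff : FunctionalEquation f) (hgg : FunctionalEquation g)
    (hdvd : f ∣ g) (hpar : Even (f.rootMultiplicity 0 + g.rootMultiplicity 0)) :
    (∃ k : ℕ, g.natDegree = f.natDegree + 2 * k ∧
      ∃ b : ℕ → ℤ_[p], (∀ j, (p : ℤ_[p]) ∣ b j) ∧
        g = f * (X ^ (2 * k) +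
          ∑ j ∈ Finset.range k, C (b j) * (X ^ (2 * j) * (X + 1) ^ (k - j)))) ∧
    (g.natDegree ≤ f.natDegree + 1 → f = g) ∧
    (∀ m n : ℕ, g.natDegree < f.natDegree + p ^ m * (p - 1) →
      (CyclotomicOrder f m n ↔ CyclotomicOrder g m n)) :=
  ⟨structure_main hp hf hg hff hgg hdvd hpar, eq_of_small hp hf hg hff hgg hdvd hpar,
    fun m n h => cyc_order hp hf hg hdvd m n h⟩

end Pool.Agent.Results.MP_6b77c8_nt.QuotientStructure
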